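import Mathlib
import Pool.Agent.N428.Per.Fin

namespace Pool.Agent.Results.MP_b575e9_co.PermanentVanishing

open Filter Topology

/-- For every finite field `F` with an odd number `q` of elements, the proportion of the
`n × n` matrices over `F` whose permanent is zero tends to `1 / q` as `n → ∞`. -/
theorem result (F : Type) [Field F] [Finite F] (hodd : Odd (Nat.card F)) :
    Tendsto (fun n : ℕ =>
      (Nat.card {A : Matrix (Fin n) (Fin n) F // A.permanent = 0} : ℝ) /
        (Nat.card (Matrix (Fin n) (Fin n) F) : ℝ)) atTop (𝓝 (1 / (Nat.card F : ℝ))) := by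
  classical
  have := Fintype.ofFinite F
  have hcard : Nat.card F = Fintype.card F := Nat.card_eq_fintype_card
  rw [hcard] at hodd ⊢
  have h2 : (2 : F) ≠ 0 := by
    intro h
    have hc : ringChar F = 2 := by
      have h1 : ringChar F ∣ 2 := ringChar.dvd (by exact_mod_cast h)
      rcases (Nat.dvd_prime Nat.prime_two).1 h1 with h3 | h3
      · exact absurd h3 (CharP.ringChar_ne_one)
      · exact h3
    have := FiniteField.even_card_iff_char_two.1 hc
    rcases hodd with ⟨r, hr⟩
    omega
  have h3 : 3 ≤ Fintype.card F := by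
    have h1 : 1 < Fintype.card F := Fintype.one_lt_card
    rcases hodd with ⟨r, hr⟩
    omega
  have hlim := Pool.Agent.N428.Per.z_limit h2 h3
  have hlim2 : Tendsto (fun m : ℕ => 1 / (Fintype.card F : ℝ) +
      (1 - 1 / (Fintype.card F : ℝ)) * Pool.Agent.N428.Per.z F (m + 1) m) atTop
      (𝓝 (1 / (Fintype.card F : ℝ))) := by
    have := (hlim.const_mul (1 - 1 / (Fintype.card F : ℝ))).const_add (1 / (Fintype.card F : ℝ))
    simpa using this
  rw [← tendsto_add_atTop_iff_nat 1]
  refine hlim2.congr (fun m => ?_)
  rw [← Pool.Agent.N428.Per.prob_eq m]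
  congr 1
  · rw [Finset.sum_boole, Nat.card_eq_fintype_card, Fintype.card_subtype]
    rfl
  · rw [Nat.card_eq_fintype_card]
    show _ = ((Fintype.card (Fin (m + 1) → Fin (m + 1) → F) : ℕ) : ℝ)
    rw [Fintype.card_fun, Fintype.card_fun, Fintype.card_fin]
    push_cast
    rfl

end Pool.Agent.Results.MP_b575e9_co.PermanentVanishing
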